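import Pool.Agent.W646.CI.Stm
import Pool.Agent.MP06ac62.L4a

/-!
# The lower estimate
-/

set_option autoImplicit false

namespace Pool.Agent.W191.CI

open MeasureTheory Filter Topology Set
open Pool.Agent.W646.CI
open MinMod (maxMod aF)
open MinMod.L4a (le_maxMod maxMod_mono)

theorem HH_nonneg {D lam : ℝ} (hD : 1 ≤ D) (hl : 1 < lam) : 0 ≤ HH D lam := by
  unfold HH
  have h1 : 0 ≤ Real.log (D * lam ^ 2) := by
    apply Real.log_nonneg
    nlinarith
  have : 0 < lam := by linarith
  positivity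

theorem HH_le {D lam : ℝ} (hD : 1 ≤ D) (hl : 1 < lam) : HH D lam ≤ 2 * Real.log D + 6 := by
  unfold HH
  have h0 : 0 < lam := by linarith
  have hD0 : 0 < D := by linarith
  have h1 : Real.log (D * lam ^ 2) = Real.log D + 2 * Real.log lam := by
    rw [Real.log_mul hD0.ne' (by positivity), Real.log_pow]
    push_cast
    ring
  rw [h1]
  have h2 : Real.log lam ≤ lam := (Real.log_le_sub_one_of_pos h0).trans (by linarith)
  have h3 : 0 ≤ Real.log D := Real.log_nonneg hD
  have h4 : 2 / lam ≤ 2 := by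
    rw [div_le_iff₀ h0]
    linarith
  have h5 : 2 / lam * (Real.log D + 2 * Real.log lam + 1) =
      2 / lam * (Real.log D + 1) + 4 * (Real.log lam / lam) := by
    field_simp
    ring
  rw [h5]
  have h6 : Real.log lam / lam ≤ 1 := by
    rw [div_le_one h0]
    exact h2
  have h7 : 2 / lam * (Real.log D + 1) ≤ 2 * (Real.log D + 1) :=
    mul_le_mul_of_nonneg_right h4 (by linarith)
  linarith

/-- frequent lower bounds -/
theorem freq {f : ℂ → ℂ} (h : order f = ⊤) (M : ℝ) :
    ∃ᶠ r : ℝ in atTop, M * Real.log r < Real.log (aF f r) := by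
  have h1 : ((M : ℝ) : EReal) < order f := by
    rw [h]
    exact EReal.coe_lt_top M
  have h2 := Filter.frequently_lt_of_lt_limsup (by isBoundedDefault) h1
  refine (h2.and_eventually (eventually_gt_atTop (1 : ℝ))).mono ?_
  rintro r ⟨hr, hr1⟩
  have h3 : M < Real.log (aF f r) / Real.log r := by exact_mod_cast hr
  rwa [lt_div_iff₀ (Real.log_pos hr1)] at h3

theorem ne_zero {f : ℂ → ℂ} (h : order f = ⊤) : ∃ z, f z ≠ 0 := by
  by_contra hcon
  push Not at hcon
  have hz : ∀ r, aF f r = 0 := by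
    intro r
    have : maxMod f r = 0 := by
      unfold maxMod
      simp [hcon]
    unfold aF
    rw [this, Real.log_zero]
  obtain ⟨r, hr, hr1⟩ := ((freq h 1).and_eventually (eventually_gt_atTop (1 : ℝ))).exists
  rw [hz r, Real.log_zero] at hr
  have := Real.log_pos hr1
  linarith

theorem lowf (hP : S_PEAK) (hG : S_GROW) : S_LOWF := by
  intro f hf hord ε hε
  have hne := ne_zero hord
  obtain ⟨z0, hz0⟩ := id hne
  have hMpos : ∀ r, ‖z0‖ ≤ r → 0 < maxMod f r := by
    intro r hr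
    have h1 : 0 < ‖f z0‖ := norm_pos_iff.mpr hz0
    have h2 := le_maxMod f hf z0
    have h3 := maxMod_mono f hf ‖z0‖ r (norm_nonneg _) hr
    linarith
  have hamono : ∀ r s, ‖z0‖ ≤ r → r ≤ s → aF f r ≤ aF f s := by
    intro r s hr hrs
    exact Real.log_le_log (hMpos r hr) (maxMod_mono f hf r s ((norm_nonneg _).trans hr) hrs)
  -- `a → ∞`
  have hatop : ∀ B : ℝ, ∀ᶠ r : ℝ in atTop, B ≤ aF f r := by
    intro B
    obtain ⟨r, hr, hr1⟩ := ((freq hord 1).and_eventually
      (eventually_ge_atTop (max ‖z0‖ (|B| + |aF f ‖z0‖| + 2)))).exists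
    have hrz : ‖z0‖ ≤ r := (le_max_left _ _).trans hr1
    have hrB : |B| + |aF f ‖z0‖| + 2 ≤ r := (le_max_right _ _).trans hr1
    have hB0 : 0 ≤ |B| := abs_nonneg _
    have hz00 : 0 ≤ |aF f ‖z0‖| := abs_nonneg _
    have hr0 : 0 < r := by linarith
    rw [one_mul] at hr
    have hlog : 0 < Real.log r := Real.log_pos (by linarith)
    have hne0 : aF f r ≠ 0 := by
      intro h0
      rw [h0, Real.log_zero] at hr
      linarith
    rw [← Real.log_abs (aF f r)] at hr
    have h5 : r < |aF f r| := (Real.log_lt_log_iff hr0 (abs_pos.mpr hne0)).mp hr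
    have h6 := hamono ‖z0‖ r le_rfl hrz
    have h7 : 0 < aF f r := by
      by_contra hcon
      push Not at hcon
      rw [abs_of_nonpos hcon] at h5
      have := neg_abs_le (aF f ‖z0‖)
      linarith
    rw [abs_of_pos h7] at h5
    have h8 := le_abs_self B
    filter_upwards [eventually_ge_atTop r] with s hs
    have h9 := hamono r s hrz hs
    linarith
  refine ⟨tendsto_atTop.2 hatop, fun hsmall => ?_⟩
  -- parameters
  set e1 : ℝ := min 1 (ε / 4) with he1
  have he1pos : 0 < e1 := lt_min one_pos (by linarith)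
  have he11 : e1 ≤ 1 := min_le_left _ _
  have he12 : e1 ≤ ε / 4 := min_le_right _ _
  obtain ⟨q, hq⟩ := exists_nat_gt (4 / ε)
  have hq0 : (0 : ℝ) < q := lt_trans (by positivity) hq
  have hq1 : 1 ≤ q := by
    rcases Nat.eq_zero_or_pos q with h | h
    · rw [h] at hq0
      simp at hq0
    · exact h
  have hkey : (2 + e1) * (1 + 1 / q) < 2 + ε := by
    have h1 : 1 / (q : ℝ) < ε / 4 := by
      rw [div_lt_iff₀ hq0]
      rw [div_lt_iff₀ hε] at hq
      nlinarith
    have h2 : 0 < 1 / (q : ℝ) := by positivity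
    nlinarith
  obtain ⟨lam0, hlam0, D, hD, hpk⟩ := hP e1 he1pos he11
  obtain ⟨c, hc, hpeak⟩ := hpk f hf hne
  obtain ⟨r1, hr1⟩ := ((hatop 1).and (hsmall.and
    (eventually_ge_atTop (max 1 ‖z0‖)))).exists_forall_of_atTop
  set R : ℝ := max r1 (max 1 ‖z0‖) with hR
  have hR1 : 1 ≤ R := le_max_of_le_right (le_max_left _ _)
  have hRz : ‖z0‖ ≤ R := le_max_of_le_right (le_max_right _ _)
  have hRr : r1 ≤ R := le_max_left _ _
  set τ0 : ℝ := Real.log R with hτ0
  have hexp0 : Real.exp τ0 = R := Real.exp_log (by linarith)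
  have hge : ∀ τ, τ0 ≤ τ → R ≤ Real.exp τ := by
    intro τ hτ
    rw [← hexp0]; exact Real.exp_le_exp.mpr hτ
  have hprop := fun τ (hτ : τ0 ≤ τ) => hr1 (Real.exp τ) (hRr.trans (hge τ hτ))
  set L : ℝ → ℝ := fun τ => Real.log (aF f (Real.exp τ)) with hL
  have hmono : MonotoneOn L (Set.Ici τ0) := by
    intro x hx y hy hxy
    have hx' : τ0 ≤ x := hx
    have h1 := (hprop x hx').1
    exact Real.log_le_log (by linarith) (hamono _ _ (hRz.trans (hge x hx')) (Real.exp_le_exp.mpr hxy))
  have hL2 : ∀ M : ℝ, ∃ᶠ τ in Filter.atTop, M * τ ≤ L τ := by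
    intro M
    have h1 := (freq hord M).and_eventually (eventually_gt_atTop (0:ℝ))
    refine Real.tendsto_log_atTop.frequently (p := fun τ => M * τ ≤ L τ) (h1.mono ?_)
    rintro r ⟨hr, hr0⟩
    simp only [hL]
    rw [Real.exp_log hr0]
    exact hr.le
  -- large arguments
  obtain ⟨x1, hx1⟩ : ∃ x1 : ℝ, ∀ x, x1 ≤ x → c * x ^ 4 ≤ Real.exp x := by
    have h1 := (Real.tendsto_pow_mul_exp_neg_atTop_nhds_zero 4)
    have h2 : ∀ᶠ x : ℝ in atTop, x ^ 4 * Real.exp (-x) < 1 / c :=
      h1.eventually_lt_const (by positivity)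
    obtain ⟨x1, hx1⟩ := h2.exists_forall_of_atTop
    refine ⟨x1, fun x hx => ?_⟩
    have h3 := hx1 x hx
    rw [lt_div_iff₀ hc, Real.exp_neg] at h3
    have h4 := Real.exp_pos x
    have h5 : x ^ 4 * (Real.exp x)⁻¹ * c * Real.exp x = c * x ^ 4 := by
      field_simp
    nlinarith
  set H0 : ℝ := 2 * Real.log D + 6 with hH0
  have hlD : 0 ≤ Real.log D := Real.log_nonneg hD
  obtain ⟨τ, hτ1, hLτ, lam, hlam, hlq, hgrow⟩ := hG L τ0 hmono hL2 q lam0 D (e1 / 20)
    (max (max x1 2) (max H0 (τ0 + H0))) hq1 hlam0 hD (by positivity)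
  have a1 : x1 ≤ L τ := ((le_max_left _ _).trans (le_max_left _ _)).trans hLτ
  have a2 : 2 ≤ L τ := ((le_max_right _ _).trans (le_max_left _ _)).trans hLτ
  have a3 : H0 ≤ τ := ((le_max_left _ _).trans (le_max_right _ _)).trans hτ1
  have a4 : τ0 + H0 ≤ τ := ((le_max_right _ _).trans (le_max_right _ _)).trans hτ1
  have hlam1 : 1 < lam := lt_of_lt_of_le hlam0 hlam
  have hHle : HH D lam ≤ H0 := HH_le hD hlam1
  have hHnn : 0 ≤ HH D lam := HH_nonneg hD hlam1
  have hτ0' : τ0 ≤ τ := by linarith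
  have hA1 : 1 ≤ aF f (Real.exp τ) := (hprop τ hτ0').1
  have hA : aF f (Real.exp τ) = Real.exp (L τ) := by
    simp only [hL]; rw [Real.exp_log (by linarith)]
  -- `lam ≤ L²`
  have hlamL : lam ≤ L τ ^ 2 := by
    by_contra hcon
    push Not at hcon
    have h1 : (L τ ^ 2) ^ q < lam ^ q := pow_lt_pow_left₀ hcon (by positivity) (by omega)
    have h2 : L τ ^ (q + 1) ≤ (L τ ^ 2) ^ q := by
      rw [← pow_mul]
      exact pow_le_pow_right₀ (by linarith) (by omega)
    linarith
  have hcA : c * lam ^ 2 ≤ aF f (Real.exp τ) := by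
    rw [hA]
    refine le_trans ?_ (hx1 _ a1)
    have : lam ^ 2 ≤ (L τ ^ 2) ^ 2 := pow_le_pow_left₀ (by linarith) hlamL 2
    have e : (L τ ^ 2) ^ 2 = L τ ^ 4 := by ring
    rw [e] at this
    exact mul_le_mul_of_nonneg_left this hc.le
  have hmain := hpeak lam hlam (Real.exp τ) (aF f (Real.exp τ))
    (Real.exp_le_exp.mpr (by linarith)) hcA ?_ ((2 + ε) * Real.log (L τ)) ?_
  · -- contradiction
    have hlogL : 0 < Real.log (L τ) := Real.log_pos (by linarith)
    have h1 : (q : ℝ) * Real.log lam ≤ (q + 1) * Real.log (L τ) := by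
      have h2 := Real.log_le_log (pow_pos (by linarith) q) hlq
      rw [Real.log_pow, Real.log_pow] at h2
      push_cast at h2
      exact h2
    have h2 : Real.log lam ≤ (1 + 1 / q) * Real.log (L τ) := by
      have e : (1 + 1 / (q : ℝ)) * Real.log (L τ) = ((q + 1) * Real.log (L τ)) / q := by
        field_simp
      rw [e, le_div_iff₀ hq0]
      linarith
    have h3 : (2 + e1) * Real.log lam ≤ (2 + e1) * ((1 + 1 / q) * Real.log (L τ)) :=
      mul_le_mul_of_nonneg_left h2 (by linarith)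
    have h4 : (2 + e1) * (1 + 1 / q) * Real.log (L τ) < (2 + ε) * Real.log (L τ) :=
      mul_lt_mul_of_pos_right hkey hlogL
    have e : (2 + e1) * ((1 + 1 / q) * Real.log (L τ)) =
        (2 + e1) * (1 + 1 / q) * Real.log (L τ) := by ring
    linarith
  · intro s hs z hz
    rw [← Real.exp_add] at hz
    have hs' := abs_le.mp hs
    have hτs : τ0 ≤ τ + s := by linarith [hs'.1]
    have h1 := le_maxMod f hf z
    rw [hz] at h1
    have h2 : 0 < maxMod f (Real.exp (τ + s)) := hMpos _ (hRz.trans (hge _ hτs))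
    have h3 : maxMod f (Real.exp (τ + s)) = Real.exp (aF f (Real.exp (τ + s))) := by
      unfold aF; rw [Real.exp_log h2]
    rw [h3] at h1
    refine h1.trans (Real.exp_le_exp.mpr ?_)
    have h4 : 1 ≤ aF f (Real.exp (τ + s)) := (hprop _ hτs).1
    have h5 : aF f (Real.exp (τ + s)) = Real.exp (L (τ + s)) := by
      simp only [hL]; rw [Real.exp_log (by linarith)]
    rw [h5, hA, ← Real.exp_add]
    refine Real.exp_le_exp.mpr ?_
    have := hgrow s hs
    linarith
  · intro s hs0 hsH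
    have hτs : τ0 ≤ τ + s := by linarith
    obtain ⟨z, hz1, hz2⟩ := (hprop _ hτs).2.1
    refine ⟨z, by rw [hz1, Real.exp_add], hz2.trans (Real.exp_le_exp.mpr ?_)⟩
    have h1 : aF f (Real.exp τ) ≤ aF f (Real.exp (τ + s)) :=
      hamono _ _ (hRz.trans (hge _ hτ0')) (Real.exp_le_exp.mpr (by linarith))
    have h2 : L τ ≤ Real.log (aF f (Real.exp (τ + s))) :=
      Real.log_le_log (by linarith) h1
    have h3 : Real.log (L τ) ≤ Real.log (Real.log (aF f (Real.exp (τ + s)))) :=
      Real.log_le_log (by linarith) h2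
    have h4 : 0 ≤ Real.log (L τ) := Real.log_nonneg (by linarith)
    have h5 : aF f (Real.exp τ) * Real.log (L τ) ≤
        aF f (Real.exp (τ + s)) * Real.log (Real.log (aF f (Real.exp (τ + s)))) :=
      mul_le_mul h1 h3 h4 (by linarith)
    have h6 : (2 + ε) * (aF f (Real.exp τ) * Real.log (L τ)) ≤
        (2 + ε) * (aF f (Real.exp (τ + s)) * Real.log (Real.log (aF f (Real.exp (τ + s))))) :=
      mul_le_mul_of_nonneg_left h5 (by linarith)
    have e : (2 + ε) * Real.log (L τ) * aF f (Real.exp τ) =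
        (2 + ε) * (aF f (Real.exp τ) * Real.log (L τ)) := by ring
    rw [e]
    linarith

end Pool.Agent.W191.CI
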